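import Pool.Agent.H73.G.R8.Helper188.Morrey.Basic

set_option autoImplicit false

open Matrix Set Filter Topology
open scoped Pointwise

namespace Pool.Agent.Helper188.Morrey

variable {W : M2 → ℝ}

/-- generators of the cone -/
def Gen (S : M2 → ℝ) : Set (M2 × ℝ) :=
  {p | ∃ (c : ℝ) (R : M2), 0 ≤ c ∧ R.det = 0 ∧ p = (c • R, c * S R)}

def Cn (S : M2 → ℝ) : AddSubmonoid (M2 × ℝ) := AddSubmonoid.closure (Gen S)

theorem cn_smul {S : M2 → ℝ} {p : M2 × ℝ} (hp : p ∈ Cn S) {c : ℝ} (hc : 0 ≤ c) :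
    c • p ∈ Cn S := by
  induction hp using AddSubmonoid.closure_induction with
  | mem x hx =>
    obtain ⟨d, R, hd, hR, rfl⟩ := hx
    refine AddSubmonoid.subset_closure ⟨c * d, R, mul_nonneg hc hd, hR, ?_⟩
    ext : 1
    · simp [smul_smul]
    · simp [mul_assoc]
  | zero => simpa using (Cn S).zero_mem
  | add x y _ _ hx hy => rw [smul_add]; exact (Cn S).add_mem hx hy

/-- the key limit statement (a walk along rank-one directions) -/
theorem walk (hW : RankOneConvex W) (F₀ : M2) {p : M2 × ℝ}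
    (hp : p ∈ Cn (fun x => W (F₀ + x) - W F₀)) :
    ∀ δ : ℝ, 0 < δ → ∀ᶠ ε : ℝ in 𝓝[>] 0, W (F₀ + ε • p.1) - W F₀ ≤ ε * (p.2 + δ) := by
  induction hp using AddSubmonoid.closure_induction_left with
  | zero =>
    intro δ hδ
    filter_upwards [self_mem_nhdsWithin] with ε hε
    have : (0:ℝ) < ε := hε
    simp only [Prod.fst_zero, smul_zero, add_zero, sub_self, Prod.snd_zero, zero_add]
    positivity
  | add_left x hx y hy ih =>
    obtain ⟨c, R, hc, hR, rfl⟩ := hx
    obtain ⟨F, s⟩ := y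
    intro δ hδ
    have h1 := ih (δ / 3) (by positivity)
    simp only at h1
    have hcont := hW.continuous
    have hη : 0 < δ / (3 * (c + 1)) := by positivity
    have h2 : ∀ᶠ ε : ℝ in 𝓝[>] 0, W (F₀ + R + ε • F) < W (F₀ + R) + δ / (3 * (c + 1)) := by
      have hc2 : Continuous (fun ε : ℝ => W (F₀ + R + ε • F)) := by fun_prop
      have := hc2.tendsto 0
      simp only [zero_smul, add_zero] at this
      exact (this.mono_left nhdsWithin_le_nhds).eventually (gt_mem_nhds (by linarith))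
    have h3 : ∀ᶠ ε : ℝ in 𝓝[>] 0, ε * c < 1 := by
      have hc2 : Continuous (fun ε : ℝ => ε * c) := by fun_prop
      have := hc2.tendsto 0
      simp only [zero_mul] at this
      exact (this.mono_left nhdsWithin_le_nhds).eventually (gt_mem_nhds (by norm_num))
    have h4 : ∀ᶠ ε : ℝ in 𝓝[>] 0, ε * (c * |s + δ / 3|) < δ / 3 := by
      have hc2 : Continuous (fun ε : ℝ => ε * (c * |s + δ / 3|)) := by fun_prop
      have := hc2.tendsto 0
      simp only [zero_mul] at this
      exact (this.mono_left nhdsWithin_le_nhds).eventually (gt_mem_nhds (by positivity))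
    filter_upwards [h1, h2, h3, h4, self_mem_nhdsWithin] with ε g1 g2 g3 g4 g5
    have hε : (0:ℝ) < ε := g5
    have hεc : 0 ≤ ε * c := by positivity
    have h5 := hW.seg (F₀ + ε • F) R hR hεc g3.le
    have e1 : F₀ + ε • F + (ε * c) • R = F₀ + ε • (c • R + F) := by
      rw [smul_add, smul_smul]; abel
    have e2 : F₀ + ε • F + R = F₀ + R + ε • F := by abel
    rw [e1, e2] at h5
    simp only [Prod.mk_add_mk]
    have h6 : (1 - ε * c) * (W (F₀ + ε • F) - W F₀) ≤ (1 - ε * c) * (ε * (s + δ / 3)) :=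
      mul_le_mul_of_nonneg_left g1 (by linarith)
    have h7 : -(ε * c) * (ε * (s + δ / 3)) ≤ ε * (δ / 3) := by
      have : -(s + δ / 3) ≤ |s + δ / 3| := neg_le_abs _
      calc -(ε * c) * (ε * (s + δ / 3)) = (ε * (ε * c)) * (-(s + δ / 3)) := by ring
        _ ≤ (ε * (ε * c)) * |s + δ / 3| := mul_le_mul_of_nonneg_left this (by positivity)
        _ = ε * (ε * (c * |s + δ / 3|)) := by ring
        _ ≤ ε * (δ / 3) := mul_le_mul_of_nonneg_left g4.le hε.le
    have h8 : (ε * c) * (δ / (3 * (c + 1))) ≤ ε * (δ / 3) := by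
      have : c * (δ / (3 * (c + 1))) ≤ δ / 3 := by
        rw [mul_div_assoc', div_le_div_iff₀ (by positivity) (by norm_num)]
        nlinarith
      calc (ε * c) * (δ / (3 * (c + 1))) = ε * (c * (δ / (3 * (c + 1)))) := by ring
        _ ≤ _ := mul_le_mul_of_nonneg_left this hε.le
    have h9 : (ε * c) * W (F₀ + R + ε • F) ≤ (ε * c) * (W (F₀ + R) + δ / (3 * (c + 1))) :=
      mul_le_mul_of_nonneg_left g2.le hεc
    have e3 : c • R + F = c • R + F := rfl
    have goal' : W (F₀ + ε • (c • R + F)) - W F₀ ≤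
        ε * (c * (W (F₀ + R) - W F₀) + s + δ) := by
      nlinarith
    exact goal'

theorem nonneg_of_mem (hW : RankOneConvex W) (F₀ : M2) {s : ℝ}
    (hp : ((0 : M2), s) ∈ Cn (fun x => W (F₀ + x) - W F₀)) : 0 ≤ s := by
  by_contra hs
  push Not at hs
  have h := walk hW F₀ hp (-s / 2) (by linarith)
  obtain ⟨ε, h1, h2⟩ := (h.and self_mem_nhdsWithin).exists
  have hε : (0:ℝ) < ε := h2
  simp only [smul_zero, add_zero, sub_self] at h1
  nlinarith

/-- **Supporting functional on the rank-one cone** (Kirchheim-Kristensen, in dimension two). -/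
theorem exists_support (hW : RankOneConvex W) (F₀ : M2) :
    ∃ l : M2 →ₗ[ℝ] ℝ, ∀ R : M2, R.det = 0 → W F₀ + l R ≤ W (F₀ + R) := by
  set S : M2 → ℝ := fun x => W (F₀ + x) - W F₀ with hS
  set A : M2 → Set ℝ := fun F => {s | (F, s) ∈ Cn S} with hA
  have hgen : ∀ R : M2, R.det = 0 → (R, S R) ∈ Cn S := fun R hR =>
    AddSubmonoid.subset_closure ⟨1, R, zero_le_one, hR, by simp⟩
  have hne : ∀ F : M2, (A F).Nonempty := by
    intro F
    have h1 := hgen !![F 0 0, F 0 1; 0, 0] (by simp [det_fin_two])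
    have h2 := hgen !![0, 0; F 1 0, F 1 1] (by simp [det_fin_two])
    have h3 := (Cn S).add_mem h1 h2
    have e : !![F 0 0, F 0 1; 0, 0] + !![0, 0; F 1 0, F 1 1] = F := by
      ext i j; fin_cases i <;> fin_cases j <;> simp
    rw [Prod.mk_add_mk, e] at h3
    exact ⟨_, h3⟩
  have hbd : ∀ F : M2, BddBelow (A F) := by
    intro F
    obtain ⟨s', hs'⟩ := hne (-F)
    refine ⟨-s', fun s hs => ?_⟩
    have h3 := (Cn S).add_mem hs hs'
    rw [Prod.mk_add_mk, add_neg_cancel] at h3
    have := nonneg_of_mem hW F₀ h3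
    linarith
  set N : M2 → ℝ := fun F => sInf (A F) with hN
  have hsc : ∀ c : ℝ, 0 < c → ∀ F, N (c • F) ≤ c * N F := by
    intro c hc F
    have : N (c • F) / c ≤ N F := by
      refine le_csInf (hne F) fun s hs => ?_
      rw [div_le_iff₀ hc]
      refine csInf_le (hbd _) ?_
      have := cn_smul hs hc.le
      simp only [Prod.smul_mk, smul_eq_mul] at this
      rw [mul_comm] at this
      exact this
    rw [div_le_iff₀ hc] at this
    linarith
  have N_hom : ∀ c : ℝ, 0 < c → ∀ x, N (c • x) = c * N x := by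
    intro c hc x
    refine le_antisymm (hsc c hc x) ?_
    have h := hsc c⁻¹ (by positivity) (c • x)
    rw [smul_smul, inv_mul_cancel₀ hc.ne', one_smul] at h
    calc c * N x ≤ c * (c⁻¹ * N (c • x)) := mul_le_mul_of_nonneg_left h hc.le
      _ = N (c • x) := by rw [← mul_assoc, mul_inv_cancel₀ hc.ne', one_mul]
  have N_add : ∀ x y, N (x + y) ≤ N x + N y := by
    intro x y
    rw [hN]
    simp only
    rw [← csInf_add (hne x) (hbd x) (hne y) (hbd y)]
    refine csInf_le_csInf (hbd _) ((hne x).add (hne y)) ?_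
    rintro _ ⟨s, hs, t, ht, rfl⟩
    have h3 := (Cn S).add_mem hs ht
    rw [Prod.mk_add_mk] at h3
    exact h3
  obtain ⟨g, -, hg⟩ := exists_extension_of_le_sublinear (⟨⊥, 0⟩ : M2 →ₗ.[ℝ] ℝ) N N_hom N_add (by
    rintro ⟨x, hx⟩
    have hx0 : x = 0 := by simpa using hx
    subst hx0
    have : (0 : ℝ) ≤ N 0 := le_csInf (hne 0) fun s hs => nonneg_of_mem hW F₀ hs
    simpa using this)
  refine ⟨g, fun R hR => ?_⟩
  have h1 : N R ≤ S R := csInf_le (hbd R) (hgen R hR)
  have h2 := hg R
  have h3 : S R = W (F₀ + R) - W F₀ := rfl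
  linarith

/-- **Inequality for a rank-one connected pair with determinants of opposite sign.** -/
theorem pair_ineq (hW : RankOneConvex W) (F₀ : M2) (l : M2 →ₗ[ℝ] ℝ)
    (hl : ∀ R : M2, R.det = 0 → W F₀ + l R ≤ W (F₀ + R)) {A B : M2} (hA : 0 < A.det)
    (hB : B.det < 0) (hAB : (A - B).det = 0) :
    0 ≤ (W (F₀ + A) - W F₀ - l A) / A.det + (W (F₀ + B) - W F₀ - l B) / (-B.det) := by
  set a := A.det with ha
  set b := -B.det with hb
  have hb0 : 0 < b := by linarith
  have hab : 0 < a + b := by linarith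
  set t := a / (a + b) with ht
  have ht0 : 0 ≤ t := by positivity
  have ht1 : t ≤ 1 := by rw [ht, div_le_one hab]; linarith
  have hBA : (B - A).det = 0 := by
    rw [det_fin_two] at hAB ⊢
    simp only [Matrix.sub_apply] at hAB ⊢
    linarith
  have hC : (A + t • (B - A)).det = 0 := by
    have h1 : (A + t • (B - A)).det = (1 - t) * A.det + t * B.det - t * (1 - t) * (A - B).det := by
      simp only [det_fin_two, Matrix.add_apply, Matrix.smul_apply, Matrix.sub_apply, smul_eq_mul]
      ring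
    rw [h1, hAB, ← ha, show B.det = -b by rw [hb]; ring, ht]
    field_simp
    ring
  have h1 := hW.seg (F₀ + A) (B - A) hBA ht0 ht1
  have h2 := hl _ hC
  have e1 : F₀ + A + t • (B - A) = F₀ + (A + t • (B - A)) := by abel
  have e2 : F₀ + A + (B - A) = F₀ + B := by abel
  rw [e1, e2] at h1
  rw [map_add, map_smul, map_sub, smul_eq_mul] at h2
  have h3 : 0 ≤ (1 - t) * (W (F₀ + A) - W F₀ - l A) + t * (W (F₀ + B) - W F₀ - l B) := by
    nlinarith
  have e3 : 1 - t = b / (a + b) := by rw [ht]; field_simp; ring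
  rw [e3, ht] at h3
  have h4 : (W (F₀ + A) - W F₀ - l A) / a + (W (F₀ + B) - W F₀ - l B) / b
      = (b / (a + b) * (W (F₀ + A) - W F₀ - l A) + a / (a + b) * (W (F₀ + B) - W F₀ - l B))
        * ((a + b) / (a * b)) := by
    field_simp
  rw [h4]
  exact mul_nonneg h3 (by positivity)

end Pool.Agent.Helper188.Morrey
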